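import Mathlib

/-!
# MP_2ea626: a non-meager filter whose coideal is not homeomorphic to its square

We construct (in ZFC) two ultrafilters `U`, `V` on `ℕ` such that the non-meager filter
`U ∩ V` has a coideal `U ∪ V` which is not homeomorphic to its square.

Each homeomorphism `h : U ∪ V → (U ∪ V)²` is contained in one of continuum many partial bijections
`Ψ` between `2^ω` and `2^ω × 2^ω`. In a recursion of length continuum, keeping continuum many sets
independent over the filters built so far, we kill every `Ψ`: take a fresh independent set `A` and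
look at the point `p = (Aᶜ, A)`; it is in `(U ∪ V)²` iff `A` distinguishes `U` from `V`, while its
partner `q` is outside `U ∪ V` iff `q ∉ U` and `q ∉ V`; a `2 × 2` diagonal is not a rectangle.
-/

namespace Pool.Agent.Results.MP_2ea626_lc.CoidealSquare

open Set Filter

/-- The subset of `ℕ` with characteristic function `x`. -/
def toSet (x : ℕ → Bool) : Set ℕ := {n | x n = true}

/-- A filter on `ℕ` as a subset of the Cantor space `ℕ → Bool`. -/
def carrier (F : Filter ℕ) : Set (ℕ → Bool) := {x | toSet x ∈ F}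

/-- The coideal `F⁺` of a filter, as a subset of the Cantor space. -/
def coideal (F : Filter ℕ) : Set (ℕ → Bool) := {x | ∀ A ∈ F, (toSet x ∩ A).Nonempty}

/-! ### Codes for partial bijections -/

section Codes

variable {Q P Z : Type} [TopologicalSpace Q] [TopologicalSpace P] [TopologicalSpace Z]

/-- The partial function coded by a set of pairs of indices of basic open sets. -/
def fwd (B : ℕ → Set Q) (D : ℕ → Set P) (C : Set (ℕ × ℕ)) : Set (Q × P) :=
  {z | (∀ j, z.2 ∈ D j → ∃ i, z.1 ∈ B i ∧ (i, j) ∈ C) ∧ ∀ i j, (i, j) ∈ C → z.1 ∈ B i → z.2 ∈ D j}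

omit [TopologicalSpace Q] in
lemma fwd_unique [T0Space P] {B : ℕ → Set Q} {D : ℕ → Set P}
    (hD : TopologicalSpace.IsTopologicalBasis (range D)) {C : Set (ℕ × ℕ)} {q : Q} {p p' : P}
    (h : (q, p) ∈ fwd B D C) (h' : (q, p') ∈ fwd B D C) : p = p' := by
  rw [hD.eq_iff]
  rintro _ ⟨j, rfl⟩
  constructor
  · intro hp
    obtain ⟨i, hi, hC⟩ := h.1 j hp
    exact h'.2 i j hC hi
  · intro hp
    obtain ⟨i, hi, hC⟩ := h'.1 j hp
    exact h.2 i j hC hi

lemma exists_fwd {B : ℕ → Set Q} {D : ℕ → Set P}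
    (hB : TopologicalSpace.IsTopologicalBasis (range B))
    (hD : TopologicalSpace.IsTopologicalBasis (range D)) {u : Z → Q} {v : Z → P}
    (hu : Topology.IsInducing u) (hv : Continuous v) :
    ∃ C, ∀ z, (u z, v z) ∈ fwd B D C := by
  refine ⟨{c | ∀ z, u z ∈ B c.1 → v z ∈ D c.2}, fun z => ⟨fun j hj => ?_, fun i j hC hi => hC z hi⟩⟩
  have ho : IsOpen (v ⁻¹' D j) := (hD.isOpen ⟨j, rfl⟩).preimage hv
  obtain ⟨W, hW, hWe⟩ := hu.isOpen_iff.1 ho
  have hzW : u z ∈ W := by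
    have : z ∈ u ⁻¹' W := by rw [hWe]; exact hj
    exact this
  obtain ⟨_, ⟨i, rfl⟩, hi, hiW⟩ := hB.exists_subset_of_mem_open hzW hW
  refine ⟨i, hi, fun z' hz' => ?_⟩
  have : z' ∈ u ⁻¹' W := hiW hz'
  rw [hWe] at this
  exact this

end Codes

/-- Partial bijections. -/
def PBij {Q P : Type} (Ψ : Set (Q × P)) : Prop :=
  (∀ q p p', (q, p) ∈ Ψ → (q, p') ∈ Ψ → p = p') ∧ ∀ q q' p, (q, p) ∈ Ψ → (q', p) ∈ Ψ → q = q'

/-- Continuum many partial bijections contain all homeomorphisms `X → X²`. -/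
lemma exists_family : ∃ Ψ : (Set (ℕ × ℕ) × Set (ℕ × ℕ)) →
      Set ((ℕ → Bool) × ((ℕ → Bool) × (ℕ → Bool))),
    (∀ c, PBij (Ψ c)) ∧ ∀ (X : Set (ℕ → Bool)) (h : X ≃ₜ X × X), ∃ c, ∀ x : X,
      ((x : ℕ → Bool), (((h x).1 : ℕ → Bool), ((h x).2 : ℕ → Bool))) ∈ Ψ c := by
  have hbasis : ∀ (Y : Type) [TopologicalSpace Y] [SecondCountableTopology Y],
      ∃ B : ℕ → Set Y, TopologicalSpace.IsTopologicalBasis (range B) := by
    intro Y _ _
    obtain ⟨b, hbc, _, hb⟩ := TopologicalSpace.exists_countable_basis Y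
    have hb' : TopologicalSpace.IsTopologicalBasis (insert univ b) := by
      refine TopologicalSpace.isTopologicalBasis_of_isOpen_of_nhds ?_ ?_
      · rintro u (rfl | hu)
        · exact isOpen_univ
        · exact hb.isOpen hu
      · intro a u ha hu
        obtain ⟨v, hv, h1, h2⟩ := hb.exists_subset_of_mem_open ha hu
        exact ⟨v, Or.inr hv, h1, h2⟩
    obtain ⟨B, hB⟩ := (hbc.insert univ).exists_eq_range (insert_nonempty _ _)
    exact ⟨B, hB ▸ hb'⟩
  obtain ⟨B, hB⟩ := hbasis (ℕ → Bool)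
  obtain ⟨D, hD⟩ := hbasis ((ℕ → Bool) × (ℕ → Bool))
  refine ⟨fun c => {z | z ∈ fwd B D c.1 ∧ (z.2, z.1) ∈ fwd D B c.2}, fun c => ⟨?_, ?_⟩, ?_⟩
  · rintro q p p' ⟨h1, _⟩ ⟨h2, _⟩
    exact fwd_unique hD h1 h2
  · rintro q q' p ⟨_, h1⟩ ⟨_, h2⟩
    exact fwd_unique hB h1 h2
  · intro X h
    have hu : Topology.IsInducing (fun x : X => (x : ℕ → Bool)) := Topology.IsInducing.subtypeVal
    have hv : Topology.IsInducing (fun x : X => (((h x).1 : ℕ → Bool), ((h x).2 : ℕ → Bool))) :=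
      (Topology.IsInducing.subtypeVal.prodMap Topology.IsInducing.subtypeVal).comp h.isInducing
    obtain ⟨C, hC⟩ := exists_fwd hB hD hu hv.continuous
    obtain ⟨C', hC'⟩ := exists_fwd hD hB hv hu.continuous
    exact ⟨(C, C'), fun x => ⟨hC x, hC' x⟩⟩

/-! ### An independent family -/

/-- The initial segment of length `m`. -/
def seg (r : ℕ → Bool) (m : ℕ) : List Bool := (List.range m).map r

/-- An independent family of subsets of `ℕ` of size continuum. -/
def ind (r : ℕ → Bool) : Set ℕ :=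
  {n | ∃ (m : ℕ) (T : Finset (List Bool)),
    (Encodable.decode n : Option (ℕ × Finset (List Bool))) = some (m, T) ∧ seg r m ∈ T}

/-- Cells of the independent family. -/
def cell (s : Finset (ℕ → Bool)) (σ : (ℕ → Bool) → Prop) : Set ℕ :=
  {n | ∀ r ∈ s, (n ∈ ind r ↔ σ r)}

lemma cell_infinite (s : Finset (ℕ → Bool)) (σ : (ℕ → Bool) → Prop) : (cell s σ).Infinite := by
  classical
  have hd : ∀ p : (ℕ → Bool) × (ℕ → Bool), ∃ i, p.1 ≠ p.2 → p.1 i ≠ p.2 i := by
    intro p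
    by_cases h : p.1 = p.2
    · exact ⟨0, fun h' => absurd h h'⟩
    · obtain ⟨i, hi⟩ := Function.ne_iff.1 h
      exact ⟨i, fun _ => hi⟩
  choose d hd using hd
  set m0 : ℕ := (s ×ˢ s).sup d + 1
  have hinj : ∀ m, m0 ≤ m → ∀ r ∈ s, ∀ r' ∈ s, seg r m = seg r' m → r = r' := by
    intro m hm r hr r' hr' h
    by_contra hne
    have h1 : d (r, r') ≤ (s ×ˢ s).sup d := Finset.le_sup (Finset.mk_mem_product hr hr')
    have h2 := List.map_inj_left.1 h (d (r, r')) (List.mem_range.2 (by omega))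
    exact hd (r, r') hne h2
  let f : ℕ → ℕ := fun m =>
    Encodable.encode ((m0 + m, (s.filter σ).image (fun r => seg r (m0 + m))) :
      ℕ × Finset (List Bool))
  have hf : Function.Injective f := by
    intro m m' h
    have := Encodable.encode_injective h
    have h2 := congrArg Prod.fst this
    simp only at h2
    omega
  refine (Set.infinite_range_of_injective hf).mono ?_
  rintro _ ⟨m, rfl⟩ r hr
  constructor
  · rintro ⟨m', T, h1, h2⟩
    simp only [f, Encodable.encodek, Option.some.injEq, Prod.mk.injEq] at h1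
    obtain ⟨rfl, rfl⟩ := h1
    obtain ⟨r', hr', h3⟩ := Finset.mem_image.1 h2
    rw [Finset.mem_filter] at hr'
    have := hinj (m0 + m) (Nat.le_add_right _ _) r' hr'.1 r hr h3
    rw [← this]
    exact hr'.2
  · intro hσ
    refine ⟨m0 + m, (s.filter σ).image (fun r => seg r (m0 + m)), ?_, ?_⟩
    · simp only [f, Encodable.encodek]
    · exact Finset.mem_image.2 ⟨r, Finset.mem_filter.2 ⟨hr, hσ⟩, rfl⟩

/-- The sets indexed by `K` are independent over the filter `F`. -/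
def Indep (F : Filter ℕ) (K : Set (ℕ → Bool)) : Prop :=
  ∀ s : Finset (ℕ → Bool), ↑s ⊆ K → ∀ σ : (ℕ → Bool) → Prop, (F ⊓ 𝓟 (cell s σ)).NeBot

lemma Indep.mono {F : Filter ℕ} {K K' : Set (ℕ → Bool)} (h : Indep F K) (hK : K' ⊆ K) :
    Indep F K' := fun s hs σ => h s (hs.trans hK) σ

lemma indep_cofinite (K : Set (ℕ → Bool)) : Indep cofinite K := fun s _ σ =>
  cofinite_inf_principal_neBot_iff.2 (cell_infinite s σ)

lemma Indep.restrict {F : Filter ℕ} {K : Set (ℕ → Bool)} (h : Indep F K)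
    {s : Finset (ℕ → Bool)} (hs : ↑s ⊆ K) (σ : (ℕ → Bool) → Prop) :
    Indep (F ⊓ 𝓟 (cell s σ)) (K \ ↑s) := by
  classical
  intro t ht τ
  have h1 := h (s ∪ t) (by
    intro r hr
    rcases Finset.mem_union.1 (Finset.mem_coe.1 hr) with hr | hr
    · exact hs hr
    · exact (ht hr).1) (fun r => if r ∈ s then σ r else τ r)
  refine h1.mono ?_
  rw [inf_assoc, inf_principal]
  refine inf_le_inf_left _ (principal_mono.2 ?_)
  intro n hn
  refine ⟨fun r hr => ?_, fun r hr => ?_⟩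
  · have h2 := hn r (Finset.mem_union_left _ hr)
    simpa only [if_pos hr] using h2
  · have h2 := hn r (Finset.mem_union_right _ hr)
    have h3 : r ∉ s := fun h' => (ht hr).2 h'
    simpa only [if_neg h3] using h2

lemma Indep.decide {F : Filter ℕ} {K : Set (ℕ → Bool)} (h : Indep F K) (a : Set ℕ) :
    ∃ F' ≤ F, ∃ K' ⊆ K, (K \ K').Finite ∧ Indep F' K' ∧ (a ∈ F' ∨ aᶜ ∈ F') := by
  by_cases h1 : Indep (F ⊓ 𝓟 a) K
  · exact ⟨F ⊓ 𝓟 a, inf_le_left, K, Subset.rfl, by simp, h1,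
      Or.inl (mem_inf_of_right (mem_principal_self a))⟩
  · unfold Indep at h1
    push Not at h1
    obtain ⟨s, hs, σ, hσ⟩ := h1
    refine ⟨F ⊓ 𝓟 (cell s σ), inf_le_left, K \ ↑s, sdiff_subset, ?_, h.restrict hs σ, Or.inr ?_⟩
    · refine s.finite_toSet.subset ?_
      rintro r ⟨hr1, hr2⟩
      by_contra hr
      exact hr2 ⟨hr1, hr⟩
    · rw [inf_right_comm] at hσ
      rw [mem_iff_inf_principal_compl, compl_compl]
      exact hσ

/-! ### Killing one partial bijection -/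

/-- The coideal of the intersection of two ultrafilters. -/
def coid (U V : Ultrafilter ℕ) : Set (ℕ → Bool) := {x | toSet x ∈ U ∨ toSet x ∈ V}

/-- `Ψ` contains no bijection `U ∪ V → (U ∪ V)²` for any ultrafilters `U ≤ F` and `V ≤ G`. -/
def Broken (Ψ : Set ((ℕ → Bool) × ((ℕ → Bool) × (ℕ → Bool)))) (F G : Filter ℕ) : Prop :=
  ∀ U V : Ultrafilter ℕ, ↑U ≤ F → ↑V ≤ G → ¬ ∃ h : coid U V ≃ coid U V × coid U V, ∀ x : coid U V,
    ((x : ℕ → Bool), (((h x).1 : ℕ → Bool), ((h x).2 : ℕ → Bool))) ∈ Ψ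

open Classical in
/-- Characteristic functions. -/
noncomputable def char (S : Set ℕ) : ℕ → Bool := fun n => decide (n ∈ S)

lemma toSet_char (S : Set ℕ) : toSet (char S) = S := by
  ext n
  simp [toSet, char]

lemma step {F G : Filter ℕ} {K : Set (ℕ → Bool)} (hF : Indep F K) (hG : Indep G K)
    (hK : K.Nonempty) {Ψ : Set ((ℕ → Bool) × ((ℕ → Bool) × (ℕ → Bool)))} (hΨ : PBij Ψ) :
    ∃ F' G' K', F' ≤ F ∧ G' ≤ G ∧ K' ⊆ K ∧ (K \ K').Finite ∧ Indep F' K' ∧ Indep G' K' ∧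
      Broken Ψ F' G' := by
  obtain ⟨r, hr⟩ := hK
  -- the four filters
  have hcell : ∀ b : Prop, cell {r} (fun _ => b) = {n | n ∈ ind r ↔ b} := by
    intro b
    ext n
    simp [cell]
  have hFb : ∀ b : Prop, Indep (F ⊓ 𝓟 {n | n ∈ ind r ↔ b}) (K \ {r}) := by
    intro b
    have := hF.restrict (s := {r}) (by simpa using hr) (fun _ => b)
    rw [hcell] at this
    simpa using this
  have hGb : ∀ b : Prop, Indep (G ⊓ 𝓟 {n | n ∈ ind r ↔ b}) (K \ {r}) := by
    intro b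
    have := hG.restrict (s := {r}) (by simpa using hr) (fun _ => b)
    rw [hcell] at this
    simpa using this
  set p : (ℕ → Bool) × (ℕ → Bool) := (char (ind r)ᶜ, char (ind r)) with hp
  have hfin1 : (K \ (K \ {r})).Finite := by
    refine (Set.finite_singleton r).subset ?_
    rintro x ⟨h1, h2⟩
    by_contra h3
    exact h2 ⟨h1, h3⟩
  have hmemT : ∀ W : Ultrafilter ℕ, {n | n ∈ ind r ↔ True} ∈ W ↔ ind r ∈ W := by
    intro W
    have : {n | n ∈ ind r ↔ True} = ind r := by ext n; simp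
    rw [this]
  have hmemF : ∀ W : Ultrafilter ℕ, {n | n ∈ ind r ↔ False} ∈ W ↔ (ind r)ᶜ ∈ W := by
    intro W
    have : {n | n ∈ ind r ↔ False} = (ind r)ᶜ := by ext n; simp
    rw [this]
  have hcompl : ∀ (W : Ultrafilter ℕ) (S : Set ℕ), Sᶜ ∈ W ↔ S ∉ W := fun W S =>
    Ultrafilter.compl_mem_iff_notMem
  by_cases hq : ∃ q, (q, p) ∈ Ψ
  · obtain ⟨q, hq⟩ := hq
    have hdF : ∀ b : Prop, ∃ F' ≤ F ⊓ 𝓟 {n | n ∈ ind r ↔ b}, ∃ K' ⊆ K \ {r},
        ((K \ {r}) \ K').Finite ∧ Indep F' K' ∧ (toSet q ∈ F' ∨ (toSet q)ᶜ ∈ F') := fun b =>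
      (hFb b).decide (toSet q)
    have hdG : ∀ b : Prop, ∃ F' ≤ G ⊓ 𝓟 {n | n ∈ ind r ↔ b}, ∃ K' ⊆ K \ {r},
        ((K \ {r}) \ K').Finite ∧ Indep F' K' ∧ (toSet q ∈ F' ∨ (toSet q)ᶜ ∈ F') := fun b =>
      (hGb b).decide (toSet q)
    choose F1 hF1 K1 hK1 hK1f hF1i hF1d using hdF
    choose G1 hG1 L1 hL1 hL1f hG1i hG1d using hdG
    -- the final choice
    have key : ∀ b c : Prop, ((toSet q)ᶜ ∈ F1 b ∧ (toSet q)ᶜ ∈ G1 c → ¬ (b ↔ c)) →
        (¬ ((toSet q)ᶜ ∈ F1 b ∧ (toSet q)ᶜ ∈ G1 c) → (b ↔ c)) →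
        ∃ F' G' K', F' ≤ F ∧ G' ≤ G ∧ K' ⊆ K ∧ (K \ K').Finite ∧ Indep F' K' ∧ Indep G' K' ∧
      Broken Ψ F' G' := by
      intro b c h1 h2
      refine ⟨F1 b, G1 c, K1 b ∩ L1 c, (hF1 b).trans inf_le_left, (hG1 c).trans inf_le_left,
        inter_subset_left.trans ((hK1 b).trans sdiff_subset), ?_,
        (hF1i b).mono inter_subset_left, (hG1i c).mono inter_subset_right, ?_⟩
      · refine ((hfin1.union (hK1f b)).union (hL1f c)).subset ?_
        rintro x ⟨hx1, hx2⟩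
        by_cases hx3 : x ∈ K \ {r}
        · by_cases hx4 : x ∈ K1 b
          · exact Or.inr ⟨hx3, fun hx5 => hx2 ⟨hx4, hx5⟩⟩
          · exact Or.inl (Or.inr ⟨hx3, hx4⟩)
        · exact Or.inl (Or.inl ⟨hx1, hx3⟩)
      · rintro U V hU hV ⟨h, hh⟩
        have hUb : {n | n ∈ ind r ↔ b} ∈ U :=
          hU ((hF1 b) (mem_inf_of_right (mem_principal_self _)))
        have hVc : {n | n ∈ ind r ↔ c} ∈ V :=
          hV ((hG1 c) (mem_inf_of_right (mem_principal_self _)))
        have hU' : ind r ∈ U ↔ b := by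
          by_cases hb : b
          · simp only [hb, iff_true] at hUb ⊢
            exact hUb
          · simp only [hb, iff_false] at hUb ⊢
            exact (hcompl U _).1 hUb
        have hV' : ind r ∈ V ↔ c := by
          by_cases hc : c
          · simp only [hc, iff_true] at hVc ⊢
            exact hVc
          · simp only [hc, iff_false] at hVc ⊢
            exact (hcompl V _).1 hVc
        have hp1 : p.1 ∈ coid U V ↔ ¬ (b ∧ c) := by
          show (toSet (char (ind r)ᶜ) ∈ U ∨ toSet (char (ind r)ᶜ) ∈ V) ↔ _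
          rw [toSet_char, hcompl, hcompl, hU', hV', not_and_or]
        have hp2 : p.2 ∈ coid U V ↔ (b ∨ c) := by
          show (toSet (char (ind r)) ∈ U ∨ toSet (char (ind r)) ∈ V) ↔ _
          rw [toSet_char, hU', hV']
        by_cases hqX : q ∈ coid U V
        · -- q in X, so p in X^2
          have h3 := hΨ.1 _ _ _ (hh ⟨q, hqX⟩) hq
          have h4 : p.1 ∈ coid U V := by rw [← h3]; exact (h ⟨q, hqX⟩).1.2
          have h5 : p.2 ∈ coid U V := by rw [← h3]; exact (h ⟨q, hqX⟩).2.2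
          rw [hp1] at h4
          rw [hp2] at h5
          have h6 : b ↔ c := by
            apply h2
            rintro ⟨h8, h9⟩
            rcases hqX with h7 | h7
            · exact (hcompl U _).1 (hU h8) h7
            · exact (hcompl V _).1 (hV h9) h7
          rcases h5 with h5 | h5
          · exact h4 ⟨h5, h6.1 h5⟩
          · exact h4 ⟨h6.2 h5, h5⟩
        · have h3 : (toSet q)ᶜ ∈ F1 b ∧ (toSet q)ᶜ ∈ G1 c := by
            constructor
            · rcases hF1d b with h8 | h8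
              · exact absurd (Or.inl (hU h8)) hqX
              · exact h8
            · rcases hG1d c with h8 | h8
              · exact absurd (Or.inr (hV h8)) hqX
              · exact h8
          have h4 := h1 h3
          have h5 : p.1 ∈ coid U V := by
            rw [hp1]
            rintro ⟨hb, hc⟩
            exact h4 ⟨fun _ => hc, fun _ => hb⟩
          have h6 : p.2 ∈ coid U V := by
            rw [hp2]
            by_contra hcon
            rw [not_or] at hcon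
            exact h4 ⟨fun hb => absurd hb hcon.1, fun hc => absurd hc hcon.2⟩
          have h7 := hh (h.symm (⟨p.1, h5⟩, ⟨p.2, h6⟩))
          rw [Equiv.apply_symm_apply] at h7
          have h8 := hΨ.2 _ _ _ h7 hq
          exact hqX (h8 ▸ (h.symm (⟨p.1, h5⟩, ⟨p.2, h6⟩)).2)
    -- deciding which corner to use
    by_cases c1 : (toSet q)ᶜ ∈ F1 True ∧ (toSet q)ᶜ ∈ G1 True
    · by_cases c2 : (toSet q)ᶜ ∈ F1 False ∧ (toSet q)ᶜ ∈ G1 False
      · exact key True False (fun _ h => h.1 trivial) (fun h => absurd ⟨c1.1, c2.2⟩ h)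
      · exact key False False (fun h => absurd h c2) (fun _ => Iff.rfl)
    · exact key True True (fun h => absurd h c1) (fun _ => Iff.rfl)
  · -- no partner: make `p` a point of the square
    refine ⟨F ⊓ 𝓟 {n | n ∈ ind r ↔ True}, G ⊓ 𝓟 {n | n ∈ ind r ↔ False}, K \ {r}, inf_le_left,
      inf_le_left, sdiff_subset, hfin1, hFb True, hGb False, ?_⟩
    rintro U V hU hV ⟨h, hh⟩
    have hU' : ind r ∈ U := (hmemT U).1 (hU (mem_inf_of_right (mem_principal_self _)))
    have hV' : (ind r)ᶜ ∈ V := (hmemF V).1 (hV (mem_inf_of_right (mem_principal_self _)))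
    have h5 : p.1 ∈ coid U V := by
      show (toSet (char (ind r)ᶜ) ∈ U ∨ toSet (char (ind r)ᶜ) ∈ V)
      rw [toSet_char]
      exact Or.inr hV'
    have h6 : p.2 ∈ coid U V := by
      show (toSet (char (ind r)) ∈ U ∨ toSet (char (ind r)) ∈ V)
      rw [toSet_char]
      exact Or.inl hU'
    have h7 := hh (h.symm (⟨p.1, h5⟩, ⟨p.2, h6⟩))
    rw [Equiv.apply_symm_apply] at h7
    exact hq ⟨_, h7⟩

/-! ### The recursion -/

/-- Two filters and the remaining index set. -/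
abbrev State := Filter ℕ × Filter ℕ × Set (ℕ → Bool)

/-- The invariant. -/
def Good (S : State) : Prop := Indep S.1 S.2.2 ∧ Indep S.2.1 S.2.2 ∧ S.2.2.Nonempty

lemma step' {Ψ : Set ((ℕ → Bool) × ((ℕ → Bool) × (ℕ → Bool)))} (hΨ : PBij Ψ) (S : State) :
    ∃ S' : State, S'.1 ≤ S.1 ∧ S'.2.1 ≤ S.2.1 ∧ S'.2.2 ⊆ S.2.2 ∧ (S.2.2 \ S'.2.2).Finite ∧
      (Good S → Indep S'.1 S'.2.2 ∧ Indep S'.2.1 S'.2.2 ∧ Broken Ψ S'.1 S'.2.1) := by
  by_cases h : Good S
  · obtain ⟨F', G', K', h1, h2, h3, h4, h5, h6, h7⟩ := step h.1 h.2.1 h.2.2 hΨ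
    exact ⟨(F', G', K'), h1, h2, h3, h4, fun _ => ⟨h5, h6, h7⟩⟩
  · exact ⟨S, le_rfl, le_rfl, Subset.rfl, by simp, fun h' => absurd h' h⟩

/-- A pair of ultrafilters killing all partial bijections of a family of size continuum. -/
theorem exists_pair {C : Type} (hC : Cardinal.mk C = Cardinal.continuum)
    (Ψ : C → Set ((ℕ → Bool) × ((ℕ → Bool) × (ℕ → Bool)))) (hΨ : ∀ c, PBij (Ψ c)) :
    ∃ U V : Ultrafilter ℕ, ↑U ≤ (cofinite : Filter ℕ) ∧ ↑V ≤ (cofinite : Filter ℕ) ∧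
      ∀ c, ¬ ∃ h : coid U V ≃ coid U V × coid U V, ∀ x : coid U V,
        ((x : ℕ → Bool), (((h x).1 : ℕ → Bool), ((h x).2 : ℕ → Bool))) ∈ Ψ c := by
  classical
  let I := Cardinal.continuum.ord.ToType
  have hI : Cardinal.mk I = Cardinal.mk C := by rw [hC]; exact Cardinal.mk_ord_toType _
  obtain ⟨e⟩ := Cardinal.eq.1 hI
  have : Nonempty I := by
    rw [← Cardinal.mk_ne_zero_iff, hI, hC]
    exact Cardinal.continuum_ne_zero
  choose nxt hn1 hn2 hn3 hn4 hn5 using fun (α : I) => step' (hΨ (e α))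
  let lim : (α : I) → ((β : I) → β < α → State) → State := fun α f =>
    (cofinite ⊓ ⨅ (β : I) (h : β < α), (f β h).1, cofinite ⊓ ⨅ (β : I) (h : β < α), (f β h).2.1,
      ⋂ (β : I) (h : β < α), (f β h).2.2)
  let Φ : I → State := WellFounded.fix (r := (· < · : I → I → Prop)) wellFounded_lt
    (fun α f => nxt α (lim α f))
  let L : I → State := fun α => lim α (fun β _ => Φ β)
  have hΦ : ∀ α, Φ α = nxt α (L α) := fun α => WellFounded.fix_eq _ _ α
  have hL1 : ∀ α β, β < α → (L α).1 ≤ (Φ β).1 := fun α β h =>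
    inf_le_right.trans (iInf₂_le β h)
  have hL2 : ∀ α β, β < α → (L α).2.1 ≤ (Φ β).2.1 := fun α β h =>
    inf_le_right.trans (iInf₂_le β h)
  have hL3 : ∀ α β, β < α → (L α).2.2 ⊆ (Φ β).2.2 := fun α β h => iInter₂_subset β h
  have hΦ1 : ∀ α, (Φ α).1 ≤ (L α).1 := fun α => by rw [hΦ]; exact hn1 α _
  have hΦ2 : ∀ α, (Φ α).2.1 ≤ (L α).2.1 := fun α => by rw [hΦ]; exact hn2 α _
  have hΦ3 : ∀ α, (Φ α).2.2 ⊆ (L α).2.2 := fun α => by rw [hΦ]; exact hn3 α _
  have hΦ4 : ∀ α, ((L α).2.2 \ (Φ α).2.2).Finite := fun α => by rw [hΦ]; exact hn4 α _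
  have hΦ5 : ∀ α, Good (L α) → Indep (Φ α).1 (Φ α).2.2 ∧ Indep (Φ α).2.1 (Φ α).2.2 ∧
      Broken (Ψ (e α)) (Φ α).1 (Φ α).2.1 := fun α => by rw [hΦ]; exact hn5 α _
  have hanti1 : ∀ α β, β ≤ α → (Φ α).1 ≤ (Φ β).1 := by
    intro α β h
    rcases eq_or_lt_of_le h with rfl | h
    · exact le_rfl
    · exact (hΦ1 α).trans (hL1 α β h)
  have hanti2 : ∀ α β, β ≤ α → (Φ α).2.1 ≤ (Φ β).2.1 := by
    intro α β h
    rcases eq_or_lt_of_le h with rfl | h
    · exact le_rfl
    · exact (hΦ2 α).trans (hL2 α β h)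
  -- the index sets are never exhausted
  have hne : ∀ α, (L α).2.2.Nonempty := by
    intro α
    by_contra hemp
    rw [not_nonempty_iff_eq_empty] at hemp
    have hcov : (Set.univ : Set (ℕ → Bool)) ⊆ ⋃ β ∈ Set.Iio α, ((L β).2.2 \ (Φ β).2.2) := by
      intro r _
      have hr : r ∉ (L α).2.2 := by rw [hemp]; exact notMem_empty r
      have hr' : ∃ β, r ∉ (Φ β).2.2 ∧ β < α := by
        by_contra hcon
        push Not at hcon
        apply hr
        refine mem_iInter₂.2 (fun β hβ => ?_)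
        by_contra hcon2
        exact absurd (hcon β hcon2) (not_le.2 hβ)
      let m := (wellFounded_lt (α := I)).min {β | r ∉ (Φ β).2.2} ⟨hr'.choose, hr'.choose_spec.1⟩
      have hm : r ∉ (Φ m).2.2 := (wellFounded_lt (α := I)).min_mem {β | r ∉ (Φ β).2.2} _
      have hm2 : ∀ γ < m, r ∈ (Φ γ).2.2 := by
        intro γ hγ
        by_contra hcon
        exact (wellFounded_lt (α := I)).not_lt_min {β | r ∉ (Φ β).2.2} hcon hγ
      have hmα : m < α := by
        obtain ⟨β, h1, h2⟩ := hr'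
        refine lt_of_le_of_lt ?_ h2
        by_contra hcon
        exact h1 (hm2 β (not_le.1 hcon))
      exact mem_iUnion₂.2 ⟨m, hmα, mem_iInter₂.2 (fun γ hγ => hm2 γ hγ), hm⟩
    have h1 : Cardinal.mk (⋃ β ∈ Set.Iio α, ((L β).2.2 \ (Φ β).2.2) : Set (ℕ → Bool)) <
        Cardinal.continuum := by
      refine lt_of_le_of_lt (Cardinal.mk_biUnion_le _ _) ?_
      refine Cardinal.mul_lt_of_lt Cardinal.aleph0_le_continuum
        (Cardinal.mk_Iio_toType_ord_lt α) ?_
      refine lt_of_le_of_lt (ciSup_le' (fun β => ?_)) Cardinal.aleph0_lt_continuum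
      exact (Cardinal.lt_aleph0_iff_set_finite.2 (hΦ4 β)).le
    have h2 : Cardinal.continuum = Cardinal.mk (Set.univ : Set (ℕ → Bool)) := by
      rw [Cardinal.mk_univ]
      simp
    have h3 := Cardinal.mk_le_mk_of_subset hcov
    rw [← h2] at h3
    exact absurd h1 (not_lt.2 h3)
  have hdir : ∀ (T : Set I) (s : Finset (ℕ → Bool)) (σ : (ℕ → Bool) → Prop) (f : I → Filter ℕ),
      (∀ α β, β ≤ α → f α ≤ f β) → (∀ β ∈ T, (f β ⊓ 𝓟 (cell s σ)).NeBot) →
      (∀ β, f β ≤ cofinite) → ((cofinite ⊓ ⨅ β ∈ T, f β) ⊓ 𝓟 (cell s σ)).NeBot := by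
    intro T s σ f hf hT hcf
    rcases T.eq_empty_or_nonempty with rfl | hTn
    · simp only [mem_empty_iff_false, iInf_false, iInf_top, inf_top_eq]
      exact indep_cofinite Set.univ s (subset_univ _) σ
    · have : Nonempty T := hTn.to_subtype
      have h1 : (⨅ β : T, (f β ⊓ 𝓟 (cell s σ))).NeBot := by
        refine iInf_neBot_of_directed' ?_ (fun β => hT β β.2)
        intro β γ
        rcases le_total (β : I) γ with h | h
        · exact ⟨γ, inf_le_inf_right _ (hf _ _ h), le_rfl⟩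
        · exact ⟨β, le_rfl, inf_le_inf_right _ (hf _ _ h)⟩
      refine h1.mono ?_
      have h2 : ∀ β ∈ T, (⨅ β : T, (f β ⊓ 𝓟 (cell s σ))) ≤ f β ⊓ 𝓟 (cell s σ) := fun β hβ =>
        iInf_le (fun β : T => f β ⊓ 𝓟 (cell s σ)) ⟨β, hβ⟩
      obtain ⟨β0, hβ0⟩ := hTn
      refine le_inf (le_inf ?_ (le_iInf₂ (fun β hβ => (h2 β hβ).trans inf_le_left))) ?_
      · exact ((h2 β0 hβ0).trans inf_le_left).trans (hcf β0)
      · exact (h2 β0 hβ0).trans inf_le_right
  have hcf1 : ∀ β, (Φ β).1 ≤ cofinite := fun β => (hΦ1 β).trans inf_le_left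
  have hcf2 : ∀ β, (Φ β).2.1 ≤ cofinite := fun β => (hΦ2 β).trans inf_le_left
  have hgood : ∀ α, Indep (Φ α).1 (Φ α).2.2 ∧ Indep (Φ α).2.1 (Φ α).2.2 ∧
      Broken (Ψ (e α)) (Φ α).1 (Φ α).2.1 := by
    intro α
    induction α using (wellFounded_lt (α := I)).induction with
    | _ α ih =>
      apply hΦ5
      refine ⟨?_, ?_, hne α⟩
      · intro s hs σ
        exact hdir (Set.Iio α) s σ (fun β => (Φ β).1) hanti1
          (fun β hβ => (ih β hβ).1 s (hs.trans (hL3 α β hβ)) σ) hcf1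
      · intro s hs σ
        exact hdir (Set.Iio α) s σ (fun β => (Φ β).2.1) hanti2
          (fun β hβ => (ih β hβ).2.1 s (hs.trans (hL3 α β hβ)) σ) hcf2
  have hF : (⨅ β, (Φ β).1).NeBot := by
    refine iInf_neBot_of_directed' ?_ (fun β => ?_)
    · intro β γ
      rcases le_total β γ with h | h
      · exact ⟨γ, hanti1 _ _ h, le_rfl⟩
      · exact ⟨β, le_rfl, hanti1 _ _ h⟩
    · exact ((hgood β).1 ∅ (by simp) (fun _ => True)).mono inf_le_left
  have hG : (⨅ β, (Φ β).2.1).NeBot := by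
    refine iInf_neBot_of_directed' ?_ (fun β => ?_)
    · intro β γ
      rcases le_total β γ with h | h
      · exact ⟨γ, hanti2 _ _ h, le_rfl⟩
      · exact ⟨β, le_rfl, hanti2 _ _ h⟩
    · exact ((hgood β).2.1 ∅ (by simp) (fun _ => True)).mono inf_le_left
  obtain ⟨α0⟩ := (inferInstance : Nonempty I)
  refine ⟨Ultrafilter.of (⨅ β, (Φ β).1), Ultrafilter.of (⨅ β, (Φ β).2.1),
    (Ultrafilter.of_le _).trans ((iInf_le _ α0).trans (hcf1 α0)),
    (Ultrafilter.of_le _).trans ((iInf_le _ α0).trans (hcf2 α0)), fun c => ?_⟩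
  have h1 := (hgood (e.symm c)).2.2
  rw [e.apply_symm_apply] at h1
  exact h1 _ _ ((Ultrafilter.of_le _).trans (iInf_le _ _)) ((Ultrafilter.of_le _).trans (iInf_le _ _))

/-! ### The filter -/

lemma coideal_sup (U V : Ultrafilter ℕ) : coideal (↑U ⊔ ↑V) = coid U V := by
  ext x
  constructor
  · intro h
    by_contra hcon
    have h1 : toSet x ∉ U := fun h' => hcon (Or.inl h')
    have h2 : toSet x ∉ V := fun h' => hcon (Or.inr h')
    have h3 : (toSet x)ᶜ ∈ (↑U ⊔ ↑V : Filter ℕ) :=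
      ⟨Ultrafilter.compl_mem_iff_notMem.2 h1, Ultrafilter.compl_mem_iff_notMem.2 h2⟩
    obtain ⟨n, hn1, hn2⟩ := h _ h3
    exact hn2 hn1
  · rintro (h | h) A hA
    · exact U.nonempty_of_mem (inter_mem h hA.1)
    · exact V.nonempty_of_mem (inter_mem h hA.2)

/-- Flipping the bits in a set, a homeomorphism of the Cantor space. -/
noncomputable def flip (S : Set ℕ) : (ℕ → Bool) ≃ₜ (ℕ → Bool) where
  toFun x n := xor (x n) (char S n)
  invFun x n := xor (x n) (char S n)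
  left_inv x := by
    funext n
    show xor (xor (x n) (char S n)) (char S n) = x n
    cases x n <;> cases char S n <;> rfl
  right_inv x := by
    funext n
    show xor (xor (x n) (char S n)) (char S n) = x n
    cases x n <;> cases char S n <;> rfl
  continuous_toFun := by
    refine continuous_pi (fun n => ?_)
    exact (continuous_of_discreteTopology (f := fun b : Bool => xor b (char S n))).comp
      (continuous_apply n)
  continuous_invFun := by
    refine continuous_pi (fun n => ?_)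
    exact (continuous_of_discreteTopology (f := fun b : Bool => xor b (char S n))).comp
      (continuous_apply n)

lemma toSet_flip (S : Set ℕ) (x : ℕ → Bool) : toSet (flip S x) = symmDiff (toSet x) S := by
  ext n
  have h1 : n ∈ toSet (flip S x) ↔ xor (x n) (char S n) = true := Iff.rfl
  have h2 : n ∈ toSet x ↔ x n = true := Iff.rfl
  have h3 : n ∈ S ↔ char S n = true := by simp [char]
  rw [h1, Set.mem_symmDiff, h2, h3]
  cases x n <;> cases char S n <;> simp

lemma symmDiff_mem (W : Ultrafilter ℕ) (a S : Set ℕ) :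
    symmDiff a S ∈ W ↔ ¬ (a ∈ W ↔ S ∈ W) := by
  have h1 : symmDiff a S = (a ∩ Sᶜ) ∪ (S ∩ aᶜ) := by
    ext n
    simp [Set.mem_symmDiff]
  rw [h1, Ultrafilter.union_mem_iff]
  have h2 : ∀ b c : Set ℕ, b ∩ cᶜ ∈ W ↔ b ∈ W ∧ c ∉ W := by
    intro b c
    rw [← Ultrafilter.compl_mem_iff_notMem]
    exact inter_mem_iff
  rw [h2, h2]
  by_cases h3 : a ∈ W <;> by_cases h4 : S ∈ W <;> simp [h3, h4]

lemma not_meagre (U V : Ultrafilter ℕ) : ¬ IsMeagre (carrier (↑U ⊔ ↑V)) := by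
  intro hM
  have hE : ∃ E : Set ℕ, E ∈ U ∧ (E ∉ V ∨ U = V) := by
    by_cases h : U = V
    · exact ⟨Set.univ, univ_mem, Or.inr h⟩
    · have : ∃ E, ¬ (E ∈ U ↔ E ∈ V) := by
        by_contra hcon
        push Not at hcon
        exact h (Ultrafilter.ext hcon)
      obtain ⟨E, hE⟩ := this
      by_cases h1 : E ∈ U
      · exact ⟨E, h1, Or.inl (fun h2 => hE ⟨fun _ => h2, fun _ => h1⟩)⟩
      · refine ⟨Eᶜ, Ultrafilter.compl_mem_iff_notMem.2 h1, Or.inl (fun h2 => ?_)⟩
        have h3 := Ultrafilter.compl_mem_iff_notMem.1 h2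
        exact hE ⟨fun h => absurd h h1, fun h => absurd h h3⟩
  obtain ⟨E, hEU, hEV⟩ := hE
  have hpre : ∀ S : Set ℕ, IsMeagre (flip S ⁻¹' carrier (↑U ⊔ ↑V)) := fun S =>
    hM.preimage_of_isOpenMap (flip S).continuous (flip S).isOpenMap
  have hun := (((hpre ∅).union (hpre E)).union (hpre Eᶜ)).union (hpre Set.univ)
  have hcov : (Set.univ : Set (ℕ → Bool)) ⊆ ((flip ∅ ⁻¹' carrier (↑U ⊔ ↑V) ∪
      flip E ⁻¹' carrier (↑U ⊔ ↑V)) ∪ flip Eᶜ ⁻¹' carrier (↑U ⊔ ↑V)) ∪
      flip Set.univ ⁻¹' carrier (↑U ⊔ ↑V) := by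
    intro x _
    have hmem : ∀ S : Set ℕ, (¬ (toSet x ∈ U ↔ S ∈ U)) → (¬ (toSet x ∈ V ↔ S ∈ V)) →
        x ∈ flip S ⁻¹' carrier (↑U ⊔ ↑V) := by
      intro S h1 h2
      show toSet (flip S x) ∈ (↑U ⊔ ↑V : Filter ℕ)
      rw [toSet_flip]
      exact ⟨(symmDiff_mem U _ _).2 h1, (symmDiff_mem V _ _).2 h2⟩
    have e1 : (∅ : Set ℕ) ∉ U := U.empty_notMem
    have e2 : (∅ : Set ℕ) ∉ V := V.empty_notMem
    have u1 : (Set.univ : Set ℕ) ∈ U := univ_mem
    have u2 : (Set.univ : Set ℕ) ∈ V := univ_mem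
    have c1 : Eᶜ ∉ U := fun h => Ultrafilter.compl_mem_iff_notMem.1 h hEU
    by_cases h1 : toSet x ∈ U <;> by_cases h2 : toSet x ∈ V
    · exact Or.inl (Or.inl (Or.inl (hmem ∅ (by simp [h1, e1]) (by simp [h2, e2]))))
    · rcases hEV with h3 | h3
      · have c2 : Eᶜ ∈ V := Ultrafilter.compl_mem_iff_notMem.2 h3
        exact Or.inl (Or.inr (hmem Eᶜ (by simp [h1, c1]) (by simp [h2, c2])))
      · rw [h3] at h1
        exact absurd h1 h2
    · rcases hEV with h3 | h3
      · exact Or.inl (Or.inl (Or.inr (hmem E (by simp [h1, hEU]) (by simp [h2, h3]))))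
      · rw [h3] at h1
        exact absurd h2 h1
    · exact Or.inr (hmem Set.univ (by simp [h1, u1]) (by simp [h2, u2]))
  exact not_isMeagre_of_isOpen isOpen_univ Set.univ_nonempty (hun.mono hcov)

/-- **There is a non-meager filter `F` on `ℕ` (proper, containing all cofinite sets) whose coideal
`F⁺` is not homeomorphic to `(F⁺)²`.** -/
theorem result : ∃ F : Filter ℕ, F.NeBot ∧ F ≤ cofinite ∧ ¬ IsMeagre (carrier F) ∧
    IsEmpty (coideal F ≃ₜ coideal F × coideal F) := by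
  obtain ⟨Ψ, hΨ1, hΨ2⟩ := exists_family
  have hC : Cardinal.mk (Set (ℕ × ℕ) × Set (ℕ × ℕ)) = Cardinal.continuum := by simp
  obtain ⟨U, V, hU, hV, h⟩ := exists_pair hC Ψ hΨ1
  refine ⟨↑U ⊔ ↑V, U.neBot.mono le_sup_left, sup_le hU hV, not_meagre U V, ⟨fun g => ?_⟩⟩
  rw [coideal_sup] at g
  obtain ⟨c, hc⟩ := hΨ2 (coid U V) g
  exact h c ⟨g.toEquiv, hc⟩

end Pool.Agent.Results.MP_2ea626_lc.CoidealSquare
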